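import Pool.Agent.X75C.Gauge
import Pool.Agent.X75C.Worst
import Pool.Agent.W52.TQ.Univ
import Pool.Agent.W52.TQ.Loc
import Pool.Agent.W503.TQ.Uni

/-!
# The worst domain and the worst initial velocity for the growth of the enstrophy

The peak `max_{[0,T]} ‖∇u(t)‖ ∈ [0,∞]` of the strong solution, which is `∞` if there is no strong
solution on `[0,T]`, is a continuous function of the domain, of the force and of the initial
velocity, with the Mosco convergence of bounded open sets. Hence it attains its maximum over every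
Mosco compact set of domains and all initial velocities with given bounds of the gradient and of
the initial acceleration in `L²`. The set of all open sets between two balls which are star-shaped
with respect to every point of the smaller ball is Mosco compact.

So, if there is a strong solution on `[0,T]` for every domain of such a set and every initial
velocity with given bounds, then there is a uniform bound of `‖∇u(t)‖` for all of them.
-/

set_option autoImplicit false

open MeasureTheory Set Filter Topology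
open scoped InnerProductSpace ENNReal ContDiff

namespace Pool.Agent.Results.MP_fd8964_an.WorstDomain

open H772R2.NS.Pub
open Pool.Agent.X75C (dst restr Adm peak Mosco MoscoCompact starBall)

/-- * **The maximum is attained.** Let `𝒟` be a Mosco compact set of open subsets of a bounded set
  `B`, `ν, T > 0`, `M ∈ ℝ`, and let the force be given by `Φ ∈ H¹(0,T; L²(ℝ³))`. If there is at
  least one initial velocity with the bound `M` in a domain of `𝒟`, then there are `Ω ∈ 𝒟` and an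
  initial velocity `x` in `Ω` with the bound `M` such that the peak for `(D, x')` is at most the
  peak for `(Ω, x)`, for every `D ∈ 𝒟` and every initial velocity `x'` in `D` with the bound `M`.
* The sets `{Ω}` and `starBall r R` are Mosco compact.
* **Continuity of the peak, stability of strong solutions.** Let `D n` and `Ω` be open subsets of
  a bounded set, `D n → Ω` in the sense of Mosco, forces given by `Φ n → Φ₀` uniformly on `[0,T]`
  in `L²(ℝ³)` and bounded in `H¹(0,T; L²)`, initial velocities `x n` in `D n` with the bound `M`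
  converging to `x₀ ∈ L²(Ω)` in `L²(ℝ³)`. Then `x₀` is an initial velocity with the bound `M`,
  the peaks converge in `[0,∞]`, and if there is a strong solution `u` on `[0,T]` in `Ω` with
  `u(0) = x₀`, then for large `n` there is one in `D n` with the initial velocity `x n`, and they
  converge to `u` in `H¹`, uniformly on `[0,T]`.
* Every increasing sequence of open sets converges to its union in the sense of Mosco. -/
theorem result :
    (∀ (𝒟 : Set (Set R3)) (B : Set R3), Bornology.IsBounded B → (∀ D ∈ 𝒟, IsOpen D ∧ D ⊆ B) →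
      MoscoCompact 𝒟 → ∀ (ν T M : ℝ), 0 < ν → 0 < T →
      ∀ Φ Φ' : ℝ → L2 univ Mat, IsH1 T Φ Φ' →
      (∃ D ∈ 𝒟, ∃ x : L2 D R3, Adm D ν M (restr D (Φ 0)) x) →
      ∃ Ω ∈ 𝒟, ∃ x : L2 Ω R3, Adm Ω ν M (restr Ω (Φ 0)) x ∧
        ∀ D ∈ 𝒟, ∀ x' : L2 D R3, Adm D ν M (restr D (Φ 0)) x' →
          peak D ν T (fun t => restr D (Φ t)) x' ≤ peak Ω ν T (fun t => restr Ω (Φ t)) x) ∧
    (∀ Ω : Set R3, IsOpen Ω → MoscoCompact {Ω}) ∧
    (∀ r R : ℝ, 0 < r → MoscoCompact (starBall r R)) ∧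
    (∀ (D : ℕ → Set R3) (Ω B : Set R3), (∀ n, IsOpen (D n)) → IsOpen Ω →
      Bornology.IsBounded B → (∀ n, D n ⊆ B) → Ω ⊆ B → Mosco D Ω →
      ∀ (ν T M N : ℝ), 0 < ν → 0 < T →
      ∀ (Φ Φ' : ℕ → ℝ → L2 univ Mat) (Φ₀ : ℝ → L2 univ Mat), (∀ n, IsH1 T (Φ n) (Φ' n)) →
      (∀ n, ∫ s in (0 : ℝ)..T, ‖Φ' n s‖ ^ 2 ≤ N) → ContinuousOn Φ₀ (Icc 0 T) →
      (∀ ε : ℝ, 0 < ε → ∀ᶠ n in atTop, ∀ t ∈ Icc 0 T, ‖Φ n t - Φ₀ t‖ ≤ ε) →
      ∀ (x : ∀ n, L2 (D n) R3) (x₀ : L2 Ω R3), (∀ n, Adm (D n) ν M (restr (D n) (Φ n 0)) (x n)) →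
      Tendsto (fun n => dst (x n) x₀) atTop (𝓝 0) →
      Adm Ω ν M (restr Ω (Φ₀ 0)) x₀ ∧
      Tendsto (fun n => peak (D n) ν T (fun t => restr (D n) (Φ n t)) (x n)) atTop
        (𝓝 (peak Ω ν T (fun t => restr Ω (Φ₀ t)) x₀)) ∧
      ∀ (u u' : ℝ → L2 Ω R3) (G G' : ℝ → L2 Ω Mat),
        IsStrong Ω ν T (fun t => restr Ω (Φ₀ t)) u u' G G' → u 0 = x₀ →
        ∀ ε : ℝ≥0∞, 0 < ε → ∀ᶠ n in atTop,
          (∃ (v v' : ℝ → L2 (D n) R3) (J J' : ℝ → L2 (D n) Mat),
            IsStrong (D n) ν T (fun t => restr (D n) (Φ n t)) v v' J J' ∧ v 0 = x n) ∧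
          ∀ (v v' : ℝ → L2 (D n) R3) (J J' : ℝ → L2 (D n) Mat),
            IsStrong (D n) ν T (fun t => restr (D n) (Φ n t)) v v' J J' → v 0 = x n →
            ∀ t ∈ Icc 0 T, dst (v t) (u t) ≤ ε ∧ dst (J t) (G t) ≤ ε) ∧
    (∀ D : ℕ → Set R3, (∀ n, IsOpen (D n)) → Monotone D → Mosco D (⋃ n, D n)) := by
  have hexh : ∀ D : ℕ → Set R3, (∀ n, IsOpen (D n)) → Monotone D → Mosco D (⋃ n, D n) :=
    fun D hD hmono => Pool.Agent.X75C.mosco_exh hD hmono rfl
  refine ⟨?_, ?_, fun r R hr => Pool.Agent.X75C.stB_compact hr, ?_, hexh⟩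
  · intro 𝒟 B hb h𝒟 hc ν T M hν hT Φ Φ' hΦ hne
    obtain ⟨D₀, hD₀, x₀, hx₀⟩ := hne
    obtain ⟨r, hr⟩ := hb.subset_ball (0 : R3)
    exact Pool.Agent.X75C.worst Pool.Agent.W52.TQ.proof_loc Pool.Agent.W503.TQ.proof_uni
      (B := Metric.ball (0 : R3) r) Metric.isOpen_ball Metric.isBounded_ball
      (fun D hD => ⟨(h𝒟 D hD).1, (h𝒟 D hD).2.trans hr⟩) hc hν hT ⟨hΦ.memLp, hΦ.prim⟩ hD₀ hx₀
  · intro Ω hΩ D hD
    refine ⟨fun n => n, strictMono_id, Ω, rfl, ?_⟩
    have h1 : ∀ n, D n = Ω := hD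
    have h2 : D = fun _ => Ω := funext h1
    have h3 := hexh (fun _ => Ω) (fun _ => hΩ) monotone_const
    rw [iUnion_const] at h3
    rw [h2]
    exact h3
  · intro D Ω B hD hΩ hb hDB hΩB Mo ν T M N hν hT Φ Φ' Φ₀ hΦ hΦM hΦ0 hlim x x₀ hx hdst
    obtain ⟨r, hr⟩ := hb.subset_ball (0 : R3)
    choose y g hxy hy hg hc using hx
    refine ⟨?_, ?_⟩
    · exact Pool.Agent.X75C.limit_adm
        (B := Metric.ball (0 : R3) r) hD hΩ Metric.isOpen_ball Metric.isBounded_ball
        (fun n => (hDB n).trans hr) (hΩB.trans hr) Mo hν hT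
        (fun n => ⟨(hΦ n).memLp, (hΦ n).prim⟩) hΦM hΦ0 hlim
        (F := fun n t => Pool.Agent.X75C.rF (D n) (Φ n t))
        (fun n t _ => Pool.Agent.X75C.rF_coe _)
        (F0 := fun t => Pool.Agent.X75C.rF Ω (Φ₀ t)) (fun t _ => Pool.Agent.X75C.rF_coe _)
        (fun n => mem_pub.mpr (hxy n)) hy hg
        (fun n => Pool.Agent.X75C.compat_pub (hD n) (mem_pub.mpr (hxy n)) (hc n)) hdst
    · exact Pool.Agent.X75C.mid Pool.Agent.W52.TQ.proof_loc Pool.Agent.W503.TQ.proof_uni
        (B := Metric.ball (0 : R3) r) hD hΩ Metric.isOpen_ball Metric.isBounded_ball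
        (fun n => (hDB n).trans hr) (hΩB.trans hr) Mo hν hT
        (fun n => ⟨(hΦ n).memLp, (hΦ n).prim⟩) hΦM hΦ0 hlim
        (F := fun n t => Pool.Agent.X75C.rF (D n) (Φ n t))
        (fun n t _ => Pool.Agent.X75C.rF_coe _)
        (F0 := fun t => Pool.Agent.X75C.rF Ω (Φ₀ t)) (fun t _ => Pool.Agent.X75C.rF_coe _)
        (fun n => mem_pub.mpr (hxy n)) hy hg
        (fun n => Pool.Agent.X75C.compat_pub (hD n) (mem_pub.mpr (hxy n)) (hc n)) hdst

end Pool.Agent.Results.MP_fd8964_an.WorstDomain
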